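import Mathlib
import Pool.Agent.R975.A87.Prob

/-!
# The noisy min-max game value on the binary tree converges in distribution

The vertices of the rooted binary tree are the lists of Booleans; the root is `[]`, the children of
`v` are `false :: v` and `true :: v`, and the height of `v` is its length. `x u` is the cookie on
the edge between `u` and its parent.
-/

set_option autoImplicit false

namespace Pool.Agent.Results.MP_a87fbc_pr.ConvergesInLaw

open Set Filter Topology MeasureTheory ProbabilityTheory

/-- `value x m v` is the value of the vertex `v` when `m` levels remain below it: it is `0` if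
`m = 0`; otherwise it is the maximum (if the height of `v` is even) or the minimum (if it is odd)
over the two children `u` of `v` of the cookie `x u` plus the value of `u`. -/
def value (x : List Bool → ℤ) : ℕ → List Bool → ℤ
  | 0, _ => 0
  | m + 1, v =>
    if Even v.length then
      max (x (false :: v) + value x m (false :: v)) (x (true :: v) + value x m (true :: v))
    else
      min (x (false :: v) + value x m (false :: v)) (x (true :: v) + value x m (true :: v))

/-- `V_n`, the value of the root in the game with `2 n` levels, as a random variable. -/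
def V {Ω : Type*} (X : List Bool → Ω → ℤ) (n : ℕ) (ω : Ω) : ℤ :=
  value (fun u => X u ω) (2 * n) []

lemma value_eq (x : List Bool → ℤ) (m : ℕ) : ∀ v, value x m v = Pool.Agent.R975.A87.val x m v := by
  induction m with
  | zero => intro v; rfl
  | succ m ih =>
    intro v
    simp only [value, Pool.Agent.R975.A87.val, ih]

/-- **Theorem.** Let the cookies `X u` be independent and uniform on `{-1, 1}`. Then `V_n`
converges in distribution as `n → ∞`. The distribution function `F` of the limit law `μ` satisfies
`0 < F 0 < 1` and `F (i + 2) = 2 √(F i) - F i` for all integers `i`. -/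
theorem result {Ω : Type*} [MeasurableSpace Ω] (P : Measure Ω) [IsProbabilityMeasure P]
    (X : List Bool → Ω → ℤ) (hX : ∀ v, Measurable (X v)) (hind : iIndepFun X P)
    (hlaw : ∀ v, P {ω | X v ω = 1} = 1 / 2 ∧ P {ω | X v ω = -1} = 1 / 2) :
    ∃ μ : ProbabilityMeasure ℝ,
      TendstoInDistribution (fun (n : ℕ) (ω : Ω) => ((V X n ω : ℤ) : ℝ)) atTop (id : ℝ → ℝ)
        (fun _ => P) (μ : Measure ℝ) ∧
      0 < (μ : Measure ℝ).real (Iic 0) ∧ (μ : Measure ℝ).real (Iic 0) < 1 ∧
      ∀ i : ℤ, (μ : Measure ℝ).real (Iic ((i : ℝ) + 2)) =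
        2 * √((μ : Measure ℝ).real (Iic (i : ℝ))) - (μ : Measure ℝ).real (Iic (i : ℝ)) := by
  have hlaw' : ∀ v, P.real {ω | X v ω = 1} = 1 / 2 ∧ P.real {ω | X v ω = -1} = 1 / 2 := by
    intro v
    obtain ⟨h1, h2⟩ := hlaw v
    constructor
    · rw [Measure.real, h1]; norm_num
    · rw [Measure.real, h2]; norm_num
  have hV : ∀ (n : ℕ), (fun ω : Ω => ((V X n ω : ℤ) : ℝ)) =
      fun ω => ((Pool.Agent.R975.A87.val (fun u => X u ω) (2 * n) [] : ℤ) : ℝ) := by
    intro n
    funext ω
    rw [V, value_eq]
  have hm : ∀ n : ℕ, AEMeasurable (fun ω : Ω => ((V X n ω : ℤ) : ℝ)) P := by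
    intro n
    rw [hV]
    exact (Pool.Agent.R975.A87.V_meas hX n).aemeasurable
  refine ⟨Pool.Agent.R975.A87.lim, ⟨hm, aemeasurable_id, ?_⟩, ?_, ?_, ?_⟩
  · have h := Pool.Agent.R975.A87.weak hX hind hlaw'
    have e1 : (⟨(Pool.Agent.R975.A87.lim : Measure ℝ).map id,
        Measure.isProbabilityMeasure_map aemeasurable_id⟩ : ProbabilityMeasure ℝ) =
        Pool.Agent.R975.A87.lim := Subtype.ext Measure.map_id
    rw [e1]
    refine h.congr fun n => Subtype.ext ?_
    show P.map _ = P.map _
    rw [hV]
  · have h := Pool.Agent.R975.A87.lim_Iic 0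
    rw [Int.cast_zero] at h
    rw [h]
    have : Pool.Agent.R975.A87.Fs (0 / 2) = Pool.Agent.R975.A87.bsI := by
      simp [Pool.Agent.R975.A87.Fs]
    rw [this]
    exact Pool.Agent.R975.A87.la_pos.trans_le Pool.Agent.R975.A87.la_le_bs
  · have h := Pool.Agent.R975.A87.lim_Iic 0
    rw [Int.cast_zero] at h
    rw [h]
    exact Pool.Agent.R975.A87.Fs_lt _
  · intro i
    have h1 := Pool.Agent.R975.A87.lim_Iic i
    have h2 := Pool.Agent.R975.A87.lim_Iic (i + 2)
    push_cast at h2
    rw [h1, h2]
    have e : (i + 2) / 2 = i / 2 + 1 := by omega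
    rw [e, Pool.Agent.R975.A87.Fs_succ]
    rfl

end Pool.Agent.Results.MP_a87fbc_pr.ConvergesInLaw
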